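import Pool.Agent.X51.Lev.Core

/-!
The second symbolic power of the Stanley–Reisner ideal of a matroid.
-/

set_option autoImplicit false

namespace Pool.Agent.X51.Lev

open Finset MvPolynomial Pool.Agent.H677R3.EdgeReg Pool.Agent.X51.HS

variable {n : ℕ} {K : Type*} [Field K]

/-- the ideal of a set of variables -/
noncomputable def VP (K : Type*) [Field K] (A : Finset (Fin n)) : Ideal (MvPolynomial (Fin n) K) :=
  Ideal.span (X '' (A : Set (Fin n)))

/-- kill the variables in `A` -/
noncomputable def kil (K : Type*) [Field K] (A : Finset (Fin n)) :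
    MvPolynomial (Fin n) K →ₐ[K] MvPolynomial (Fin n) K :=
  aeval (fun j : Fin n => if j ∈ A then 0 else X j)

lemma kil_X (A : Finset (Fin n)) (j : Fin n) :
    kil K A (X j) = if j ∈ A then 0 else X j := by
  unfold kil
  rw [aeval_X]

lemma sub_kil (A : Finset (Fin n)) (f : MvPolynomial (Fin n) K) : f - kil K A f ∈ VP K A := by
  induction f using MvPolynomial.induction_on with
  | C c =>
    have : kil K A (C c) = C c := by
      unfold kil
      rw [aeval_C]
      rfl
    rw [this, sub_self]
    exact Submodule.zero_mem _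
  | add p q hp hq =>
    rw [map_add]
    have : p + q - (kil K A p + kil K A q) = (p - kil K A p) + (q - kil K A q) := by ring
    rw [this]
    exact Submodule.add_mem _ hp hq
  | mul_X p j hp =>
    rw [map_mul, kil_X]
    split_ifs with h
    · rw [mul_zero, sub_zero]
      exact Ideal.mul_mem_left _ _ (Ideal.subset_span ⟨j, by exact_mod_cast h, rfl⟩)
    · rw [← sub_mul]
      exact Ideal.mul_mem_right _ _ hp

lemma ker_kil (A : Finset (Fin n)) : RingHom.ker (kil K A) = VP K A := by
  ext f
  rw [RingHom.mem_ker]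
  constructor
  · intro h
    have := sub_kil (K := K) A f
    rwa [h, sub_zero] at this
  · intro h
    have h1 : VP K A ≤ RingHom.ker (kil K A) := by
      unfold VP
      rw [Ideal.span_le]
      rintro _ ⟨j, hj, rfl⟩
      rw [SetLike.mem_coe, RingHom.mem_ker, kil_X, if_pos (by exact_mod_cast hj)]
    exact h1 h

lemma VP_prime (A : Finset (Fin n)) : (VP K A).IsPrime := by
  rw [← ker_kil]
  exact RingHom.ker_isPrime _

lemma X_mem_VP {A : Finset (Fin n)} {j : Fin n} : (X j : MvPolynomial (Fin n) K) ∈ VP K A ↔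
    j ∈ A := by
  rw [← ker_kil, RingHom.mem_ker, kil_X]
  constructor
  · intro h
    by_contra hj
    rw [if_neg hj] at h
    exact X_ne_zero j h
  · intro h
    rw [if_pos h]

lemma VP_mono {A B : Finset (Fin n)} (h : A ⊆ B) : VP K A ≤ VP K B := by
  unfold VP
  exact Ideal.span_mono (Set.image_mono (by exact_mod_cast h))

lemma VP_height_ge (A : Finset (Fin n)) : (A.card : ℕ∞) ≤ (VP K A).height := by
  classical
  induction A using Finset.induction_on with
  | empty => simp
  | insert j A hj ih =>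
    have hlt : VP K A < VP K (insert j A) := by
      refine lt_of_le_of_ne (VP_mono (Finset.subset_insert _ _)) ?_
      intro h
      have h1 : (X j : MvPolynomial (Fin n) K) ∈ VP K (insert j A) :=
        X_mem_VP.mpr (Finset.mem_insert_self _ _)
      rw [← h, X_mem_VP] at h1
      exact hj h1
    have hp1 := VP_prime (K := K) A
    have hp2 := VP_prime (K := K) (insert j A)
    have h3 := Ideal.height_add_one_le_of_lt_of_isPrime hlt
    rw [Finset.card_insert_of_notMem hj]
    push_cast
    exact le_trans (by gcongr) h3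

lemma VP_height_le (A : Finset (Fin n)) : (VP K A).height ≤ A.card := by
  classical
  refine (Ideal.height_le_spanFinrank _ (VP_prime (K := K) A).ne_top).trans ?_
  have h1 : (VP K A).spanFinrank ≤ (X '' (A : Set (Fin n)) :
      Set (MvPolynomial (Fin n) K)).ncard :=
    Submodule.spanFinrank_span_le_ncard_of_finite ((Set.toFinite _).image _)
  have h2 : (X '' (A : Set (Fin n)) : Set (MvPolynomial (Fin n) K)).ncard ≤ A.card := by
    refine (Set.ncard_image_le (Set.toFinite _)).trans ?_
    rw [Set.ncard_coe_finset]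
  exact_mod_cast h1.trans h2

/-- the square of an ideal of variables -/
lemma mem_VP_sq (A : Finset (Fin n)) (p : MvPolynomial (Fin n) K) :
    p ∈ VP K A ^ 2 ↔ ∀ d ∈ p.support, 2 ≤ ∑ j ∈ A, d j := by
  classical
  constructor
  · intro hp
    have h1 : ∀ q ∈ VP K A, ∀ d ∈ q.support, 1 ≤ ∑ j ∈ A, d j := by
      intro q hq
      refine Submodule.span_induction (p := fun q _ => ∀ d ∈ q.support, 1 ≤ ∑ j ∈ A, d j)
        ?_ ?_ ?_ ?_ hq
      · rintro _ ⟨j, hj, rfl⟩ d hd
        rw [support_X, Finset.mem_singleton] at hd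
        rw [hd, ← Finset.add_sum_erase _ _ (by exact_mod_cast hj : j ∈ A), Finsupp.single_eq_same]
        omega
      · intro d hd
        simp at hd
      · intro x y _ _ hx hy d hd
        rcases Finset.mem_union.mp (support_add hd) with h | h
        · exact hx d h
        · exact hy d h
      · intro a x _ hx d hd
        rw [smul_eq_mul] at hd
        obtain ⟨e, -, f, hf, rfl⟩ := Finset.mem_add.mp (support_mul a x hd)
        have := hx f hf
        simp only [Finsupp.coe_add, Pi.add_apply, Finset.sum_add_distrib]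
        omega
    rw [pow_two] at hp
    refine Submodule.mul_induction_on (C := fun q => ∀ d ∈ q.support, 2 ≤ ∑ j ∈ A, d j) hp ?_ ?_
    · intro x hx y hy d hd
      obtain ⟨e, he, f, hf, rfl⟩ := Finset.mem_add.mp (support_mul x y hd)
      have h2 := h1 x hx e he
      have h3 := h1 y hy f hf
      simp only [Finsupp.coe_add, Pi.add_apply, Finset.sum_add_distrib]
      omega
    · intro x y hx hy d hd
      rcases Finset.mem_union.mp (support_add hd) with h | h
      · exact hx d h
      · exact hy d h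
  · intro h
    rw [← support_sum_monomial_coeff p]
    refine Ideal.sum_mem _ fun d hd => ?_
    have h2 := h d hd
    have hX : ∀ (e : Fin n →₀ ℕ), 1 ≤ ∑ j ∈ A, e j →
        ∃ j ∈ A, ∃ f : Fin n →₀ ℕ, e = f + Finsupp.single j 1 := by
      intro e he
      obtain ⟨j, hj, hj2⟩ : ∃ j ∈ A, e j ≠ 0 := by
        by_contra hcon
        push Not at hcon
        rw [Finset.sum_eq_zero hcon] at he
        omega
      refine ⟨j, hj, e - Finsupp.single j 1, (tsub_add_cancel_of_le ?_).symm⟩
      rw [Finsupp.single_le_iff]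
      omega
    obtain ⟨j, hj, e, he⟩ := hX d (by omega)
    have h3 : ∑ l ∈ A, d l = ∑ l ∈ A, e l + 1 := by
      rw [he]
      simp only [Finsupp.coe_add, Pi.add_apply, Finset.sum_add_distrib]
      congr 1
      rw [Finset.sum_eq_single j]
      · simp
      · intro b _ hb
        rw [Finsupp.single_apply, if_neg (fun h' => hb h'.symm)]
      · intro h'
        exact absurd hj h'
    obtain ⟨l, hl, f, hf⟩ := hX e (by omega)
    have h4 : monomial d (coeff d p) = monomial f (coeff d p) * (X l * X j) := by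
      rw [he, hf, ← mul_assoc]
      simp only [X, monomial_mul, mul_one]
    rw [h4, pow_two]
    exact Ideal.mul_mem_left _ _ (Ideal.mul_mem_mul (X_mem_VP.mpr hl) (X_mem_VP.mpr hj))

/-- The Stanley–Reisner ideal of the complex of independent sets of a matroid: it is generated by
the squarefree monomials `x_C`, `C` dependent. -/
noncomputable def SR (K : Type*) [Field K] (M : Matroid (Fin n)) :
    Ideal (MvPolynomial (Fin n) K) :=
  Ideal.span {p | ∃ C : Finset (Fin n), ¬ M.Indep (C : Set (Fin n)) ∧ p = ∏ i ∈ C, X i}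

/-- The second symbolic power: the intersection of the squares of the minimal primes. -/
noncomputable def symbSq (I : Ideal (MvPolynomial (Fin n) K)) : Ideal (MvPolynomial (Fin n) K) :=
  ⨅ P ∈ I.minimalPrimes, P ^ 2

lemma SR_le_VP {M : Matroid (Fin n)} {B : Finset (Fin n)} (hB : M.Indep (B : Set (Fin n))) :
    SR K M ≤ VP K Bᶜ := by
  classical
  unfold SR
  rw [Ideal.span_le]
  rintro _ ⟨C, hC, rfl⟩
  obtain ⟨j, hj, hj2⟩ : ∃ j ∈ C, j ∉ B := by
    by_contra hcon
    push Not at hcon
    exact hC (hB.subset (by exact_mod_cast hcon))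
  rw [SetLike.mem_coe, ← Finset.mul_prod_erase _ _ hj]
  exact Ideal.mul_mem_right _ _ (X_mem_VP.mpr (Finset.mem_compl.mpr hj2))

/-- a prime containing the ideal contains the prime of a basis -/
lemma exists_base_le {M : Matroid (Fin n)} (hE : M.E = Set.univ)
    {Q : Ideal (MvPolynomial (Fin n) K)} (hQ : Q.IsPrime) (h : SR K M ≤ Q) :
    ∃ B : Finset (Fin n), M.IsBase (B : Set (Fin n)) ∧ VP K Bᶜ ≤ Q := by
  classical
  set G : Finset (Fin n) := Finset.univ.filter fun j => (X j : MvPolynomial (Fin n) K) ∉ Q with hG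
  have hGi : M.Indep (G : Set (Fin n)) := by
    by_contra hcon
    have h1 : (∏ i ∈ G, X i : MvPolynomial (Fin n) K) ∈ Q :=
      h (Ideal.subset_span ⟨G, hcon, rfl⟩)
    obtain ⟨j, hj, hj2⟩ := hQ.prod_mem_iff.mp h1
    rw [hG, Finset.mem_filter] at hj
    exact hj.2 hj2
  obtain ⟨B, hB, hGB⟩ := hGi.exists_isBase_superset
  refine ⟨(Set.toFinite B).toFinset, by rwa [Set.Finite.coe_toFinset], ?_⟩
  unfold VP
  rw [Ideal.span_le]
  rintro _ ⟨j, hj, rfl⟩
  by_contra hcon
  have h2 : j ∈ G := by
    rw [hG, Finset.mem_filter]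
    exact ⟨Finset.mem_univ _, hcon⟩
  have h3 := hGB (by exact_mod_cast h2 : j ∈ (G : Set (Fin n)))
  simp only [Finset.coe_compl, Set.Finite.coe_toFinset, Set.mem_compl_iff] at hj
  exact hj h3

lemma VP_inj {A B : Finset (Fin n)} (h : VP K A ≤ VP K B) : A ⊆ B := by
  intro j hj
  exact X_mem_VP.mp (h (X_mem_VP.mpr hj))

lemma minimalPrimes_SR {M : Matroid (Fin n)} (hE : M.E = Set.univ) :
    (SR K M).minimalPrimes =
      {P | ∃ B : Finset (Fin n), M.IsBase (B : Set (Fin n)) ∧ P = VP K Bᶜ} := by
  classical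
  ext P
  constructor
  · intro hP
    obtain ⟨B, hB, hle⟩ := exists_base_le hE hP.1.1 hP.1.2
    refine ⟨B, hB, le_antisymm ?_ hle⟩
    exact hP.2 ⟨VP_prime _, SR_le_VP hB.indep⟩ hle
  · rintro ⟨B, hB, rfl⟩
    refine ⟨⟨VP_prime _, SR_le_VP hB.indep⟩, ?_⟩
    rintro Q ⟨hQ, hQ2⟩ hle
    obtain ⟨B', hB', hle'⟩ := exists_base_le hE hQ hQ2
    have h1 : B'ᶜ ⊆ Bᶜ := VP_inj (hle'.trans hle)
    have h2 : B ⊆ B' := Finset.compl_subset_compl.mp h1
    have h3 : (B : Set (Fin n)) = B' := hB.eq_of_subset_isBase hB' (by exact_mod_cast h2)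
    have h4 : B = B' := by exact_mod_cast h3
    rw [h4]
    exact hle'

lemma dual_base {M : Matroid (Fin n)} (hE : M.E = Set.univ) (B : Finset (Fin n)) :
    M✶.IsBase (B : Set (Fin n)) ↔ M.IsBase ((Bᶜ : Finset (Fin n)) : Set (Fin n)) := by
  rw [Matroid.dual_isBase_iff (by rw [hE]; exact Set.subset_univ _), hE, Finset.coe_compl,
    Set.compl_eq_univ_sdiff]

lemma mem_symbSq {M : Matroid (Fin n)} (hE : M.E = Set.univ) (p : MvPolynomial (Fin n) K) :
    p ∈ symbSq (SR K M) ↔ ∀ d ∈ p.support, PN M✶ d := by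
  unfold symbSq
  rw [Submodule.mem_iInf]
  constructor
  · intro h d hd B hB
    have h1 := h (VP K B)
    rw [Submodule.mem_iInf] at h1
    have h2 := h1 (by
      rw [minimalPrimes_SR hE]
      exact ⟨Bᶜ, (dual_base hE B).mp hB, by rw [compl_compl]⟩)
    exact (mem_VP_sq B p).mp h2 d hd
  · intro h P
    rw [Submodule.mem_iInf]
    intro hP
    rw [minimalPrimes_SR hE] at hP
    obtain ⟨B, hB, rfl⟩ := hP
    rw [mem_VP_sq]
    intro d hd
    refine h d hd Bᶜ ?_
    rw [dual_base hE, compl_compl]
    exact hB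

lemma card_base (N : Matroid (Fin n)) {B : Finset (Fin n)} (hB : N.IsBase (B : Set (Fin n))) :
    B.card = rk N Finset.univ := by
  have h1 : ((B.card : ℕ) : ℕ∞) = (rk N Finset.univ : ℕ) := by
    rw [coe_rk, Finset.coe_univ, N.eRk_univ_eq, ← hB.encard_eq_eRank, Set.encard_coe_eq_coe_finsetCard]
  exact_mod_cast h1

lemma height_symbSq {M : Matroid (Fin n)} (hE : M.E = Set.univ) :
    (symbSq (SR K M)).height = rk M✶ Finset.univ := by
  classical
  apply le_antisymm
  · obtain ⟨B, hB⟩ := M.exists_isBase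
    have hB' : M.IsBase (((Set.toFinite B).toFinset : Finset (Fin n)) : Set (Fin n)) := by
      rwa [Set.Finite.coe_toFinset]
    set B0 := (Set.toFinite B).toFinset
    have h1 : symbSq (SR K M) ≤ VP K B0ᶜ := by
      refine le_trans ?_ (Ideal.pow_le_self (n := 2) (by norm_num))
      unfold symbSq
      refine iInf₂_le (VP K B0ᶜ) ?_
      rw [minimalPrimes_SR hE]
      exact ⟨B0, hB', rfl⟩
    refine (Ideal.height_mono h1).trans ((VP_height_le _).trans ?_)
    rw [card_base M✶ ((dual_base hE _).mpr (by rwa [compl_compl]))]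
  · rw [Ideal.height_eq_inf_minimalPrimes]
    refine le_iInf₂ fun Q hQ => ?_
    have hQp : Q.IsPrime := hQ.1.1
    have hinf : (Finset.univ.filter fun B : Finset (Fin n) => M.IsBase (B : Set (Fin n))).inf
        (fun B => VP K Bᶜ ^ 2) ≤ Q := by
      refine le_trans ?_ hQ.1.2
      unfold symbSq
      refine le_iInf₂ fun P hP => ?_
      rw [minimalPrimes_SR hE] at hP
      obtain ⟨B, hB, rfl⟩ := hP
      exact Finset.inf_le (f := fun B : Finset (Fin n) => VP K Bᶜ ^ 2) (by simp [hB])
    rw [hQp.inf_le'] at hinf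
    obtain ⟨B, hB, hle⟩ := hinf
    rw [Finset.mem_filter] at hB
    have h1 : VP K Bᶜ ≤ Q := hQp.le_of_pow_le hle
    refine le_trans ?_ (Ideal.height_mono h1)
    refine le_trans ?_ (VP_height_ge _)
    rw [card_base M✶ ((dual_base hE _).mpr (by rw [compl_compl]; exact hB.2))]

/-- a cocircuit of the dual matroid is a circuit -/
lemma isCircuit_of {M : Matroid (Fin n)} (hE : M.E = Set.univ) {C : Finset (Fin n)}
    (h1 : rk M✶ Cᶜ + 1 = rk M✶ Finset.univ)
    (h2 : ∀ s ∈ C, rk M✶ Finset.univ ≤ rk M✶ (insert s Cᶜ)) :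
    M.IsCircuit (C : Set (Fin n)) := by
  classical
  rw [Matroid.isCircuit_iff_dep_forall_sdiff_singleton_indep]
  constructor
  · rw [← Matroid.not_indep_iff (by rw [hE]; exact Set.subset_univ _)]
    intro hind
    obtain ⟨B, hB, hCB⟩ := hind.exists_isBase_superset
    have hB' : M.IsBase (((Set.toFinite B).toFinset : Finset (Fin n)) : Set (Fin n)) := by
      rwa [Set.Finite.coe_toFinset]
    set B0 := (Set.toFinite B).toFinset with hB0
    have h3 := (base_iff M✶ Cᶜ).mp ⟨B0ᶜ, (dual_base hE _).mpr (by rwa [compl_compl]), by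
      rw [Finset.compl_subset_compl]
      intro x hx
      rw [hB0, Set.Finite.mem_toFinset]
      exact hCB (by exact_mod_cast hx)⟩
    omega
  · intro s hs
    obtain ⟨B, hB, hBC⟩ := (base_iff M✶ (insert s Cᶜ)).mpr (h2 s (by exact_mod_cast hs))
    rw [dual_base hE] at hB
    refine hB.indep.subset ?_
    rintro x ⟨hx, hxs⟩
    rw [Finset.mem_coe, Finset.mem_compl]
    intro hxB
    rcases Finset.mem_insert.mp (hBC hxB) with h | h
    · exact hxs h
    · rw [Finset.mem_compl] at h
      exact h (by exact_mod_cast hx)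

end Pool.Agent.X51.Lev
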