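import Pool.Agent.X51.HS.Mat

/-!
Acyclicity of the complexes of sets of bounded rank, and of some suspensions.
-/

set_option autoImplicit false

namespace Pool.Agent.X51.Lev

open Finset Pool.Agent.H677R3.EdgeReg Pool.Agent.X51.HS

variable {n : ℕ} {k : Type*} [Field k]

/-- no homology on the sets of cardinality `i` -/
def Ac (k : Type*) [Field k] (Q : Finset (Fin n) → Prop) (i : ℕ) : Prop :=
  ∀ z : Finset (Fin n) → k, (∀ T, z T ≠ 0 → Q T ∧ T.card = i) → (∀ T, cd z T = 0) →
    ∃ g : Finset (Fin n) → k, (∀ T, g T ≠ 0 → Q T ∧ T.card = i + 1) ∧ ∀ T, cd g T = z T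

lemma ac_congr {Q Q' : Finset (Fin n) → Prop} {i : ℕ} (h : ∀ T, Q T ↔ Q' T) (hQ : Ac k Q i) :
    Ac k Q' i := by
  have : Q = Q' := funext fun T => propext (h T)
  rwa [← this]

lemma ac_none {Q : Finset (Fin n) → Prop} {i : ℕ} (h : ∀ T, Q T → T.card ≠ i) : Ac k Q i := by
  intro z hz _
  refine ⟨fun _ => 0, fun T hT => absurd rfl hT, fun T => ?_⟩
  rw [cd_zero]
  by_contra hne
  obtain ⟨h1, h2⟩ := hz T (fun h' => hne h'.symm)
  exact h T h1 h2

lemma ac_cone {Q : Finset (Fin n) → Prop} (e : Fin n) (h : ∀ T, Q T → Q (insert e T)) (i : ℕ) :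
    Ac k Q i := by
  intro z hz hc
  refine ⟨hv e z, fun T hT => ?_, cd_hv hc e⟩
  obtain ⟨h1, h2⟩ := supp_hv hT
  obtain ⟨h3, h4⟩ := hz _ h2
  refine ⟨?_, ?_⟩
  · have := h _ h3
    rwa [Finset.insert_erase h1] at this
  · rw [← h4, Finset.card_erase_of_mem h1]
    have : 0 < T.card := Finset.card_pos.mpr ⟨e, h1⟩
    omega

/-- deletion and link -/
lemma ac_dl {Q : Finset (Fin n) → Prop} (e : Fin n) (hdown : ∀ T, Q (insert e T) → Q T) (i : ℕ)
    (hdel : Ac k (fun T => Q T ∧ e ∉ T) i)
    (hlink : ∀ j, j + 1 = i → Ac k (fun T => Q (insert e T) ∧ e ∉ T) j) : Ac k Q i := by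
  classical
  intro z hz hc
  let zl : Finset (Fin n) → k := fun T => if e ∈ T then 0 else sg k e T * z (insert e T)
  let zd : Finset (Fin n) → k := fun T => if e ∈ T then 0 else z T
  have hzdec : ∀ T, z T = hv e zl T + zd T := by
    intro T
    by_cases h : e ∈ T
    · simp only [zl, zd, hv, if_pos h, if_neg (Finset.notMem_erase e T),
        Finset.insert_erase h, add_zero]
      rw [← mul_assoc, sg_mul_self, one_mul]
    · simp only [zd, hv, if_neg h, zero_add]
  have hsum : ∀ T, cd (hv e zl) T + cd zd T = 0 := by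
    intro T
    rw [← cd_add, ← hc T]
    congr 1
    funext T
    exact (hzdec T).symm
  have hzdT : ∀ T, e ∈ T → cd zd T = 0 := by
    intro T hT
    unfold cd
    refine Finset.sum_eq_zero fun j _ => ?_
    simp only [zd, if_pos (Finset.mem_insert_of_mem hT), mul_zero]
  have hcl : ∀ T, cd zl T = 0 := by
    intro T
    by_cases h : e ∈ T
    · unfold cd
      refine Finset.sum_eq_zero fun j _ => ?_
      simp only [zl, if_pos (Finset.mem_insert_of_mem h), mul_zero]
    · have h1 := hsum (insert e T)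
      rw [hzdT _ (Finset.mem_insert_self _ _), add_zero] at h1
      have h2 := homotopy e zl (insert e T)
      rw [h1, zero_add] at h2
      have h3 : zl (insert e T) = 0 := by simp only [zl, if_pos (Finset.mem_insert_self _ _)]
      rw [h3] at h2
      unfold hv at h2
      rw [if_pos (Finset.mem_insert_self _ _), Finset.erase_insert h] at h2
      have h4 : sg k e T * (sg k e T * cd zl T) = 0 := by rw [h2, mul_zero]
      rwa [← mul_assoc, sg_mul_self, one_mul] at h4
  obtain ⟨w, hw1, hw2⟩ : ∃ w : Finset (Fin n) → k,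
      (∀ T, w T ≠ 0 → (Q (insert e T) ∧ e ∉ T) ∧ T.card = i) ∧ ∀ T, cd w T = zl T := by
    have hzl : ∀ T, zl T ≠ 0 → (Q (insert e T) ∧ e ∉ T) ∧ T.card + 1 = i := by
      intro T hT
      simp only [zl] at hT
      split_ifs at hT with h
      · exact absurd rfl hT
      · have h1 : z (insert e T) ≠ 0 := fun h' => hT (by rw [h', mul_zero])
        obtain ⟨h2, h3⟩ := hz _ h1
        rw [Finset.card_insert_of_notMem h] at h3
        exact ⟨⟨h2, h⟩, h3⟩
    rcases Nat.eq_zero_or_pos i with hi0 | hi0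
    · refine ⟨fun _ => 0, fun T h => absurd rfl h, fun T => ?_⟩
      rw [cd_zero]
      by_contra h
      have := (hzl T (fun h' => h h'.symm)).2
      omega
    · obtain ⟨w, h1, h2⟩ := hlink (i - 1) (by omega) zl
        (fun T hT => ⟨(hzl T hT).1, by have := (hzl T hT).2; omega⟩) hcl
      refine ⟨w, fun T hT => ⟨(h1 T hT).1, ?_⟩, h2⟩
      have := (h1 T hT).2
      omega
  have hcyc : ∀ T, cd (fun T => zd T + w T) T = 0 := by
    intro T
    rw [cd_add, hw2]
    have h1 := hsum T
    rw [cd_hv hcl] at h1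
    rw [add_comm]
    exact h1
  obtain ⟨g, hg1, hg2⟩ := hdel (fun T => zd T + w T) (fun T hT => by
      by_cases h : e ∈ T
      · exfalso
        apply hT
        have h1 : w T = 0 := by
          by_contra h'
          exact (hw1 T h').1.2 h
        simp only [zd, if_pos h, h1, add_zero]
      · by_cases h1 : w T = 0
        · simp only [zd, if_neg h, h1, add_zero] at hT
          exact ⟨⟨(hz T hT).1, h⟩, (hz T hT).2⟩
        · exact ⟨⟨hdown T (hw1 T h1).1.1, h⟩, (hw1 T h1).2⟩) hcyc
  refine ⟨fun T => g T - hv e w T, fun T hT => ?_, fun T => ?_⟩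
  · by_cases h : g T = 0
    · have h1 : hv e w T ≠ 0 := fun h' => hT (by simp only [h, h', sub_zero])
      obtain ⟨h2, h3⟩ := supp_hv h1
      obtain ⟨h4, h5⟩ := hw1 _ h3
      rw [Finset.insert_erase h2] at h4
      refine ⟨h4.1, ?_⟩
      rw [← h5, Finset.card_erase_of_mem h2]
      have : 0 < T.card := Finset.card_pos.mpr ⟨e, h2⟩
      omega
    · exact ⟨(hg1 T h).1.1, (hg1 T h).2⟩
  · rw [cd_sub, hg2]
    have h1 := homotopy e w T
    have h2 : hv e (cd w) T = hv e zl T := by
      have : cd w = zl := funext hw2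
      rw [this]
    rw [h2] at h1
    rw [hzdec T]
    linear_combination -h1

/-- rank functions -/
structure Rk (r : Finset (Fin n) → ℕ) : Prop where
  mono : ∀ A B, A ⊆ B → r A ≤ r B
  step : ∀ e A, r (insert e A) ≤ r A + 1
  cl : ∀ e A B, A ⊆ B → r (insert e A) = r A → r (insert e B) = r B

/-- the complex of the sets of rank at most `t` -/
theorem ac_rank {r : Finset (Fin n) → ℕ} (hr : Rk r) (t : ℕ) : ∀ (U Z : Finset (Fin n)) (i : ℕ),
    t < i + r Z → Ac k (fun T => T ⊆ U ∧ r (Z ∪ T) ≤ t) i := by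
  classical
  intro U
  induction U using Finset.induction_on with
  | empty =>
    intro Z i hi
    refine ac_none fun T hT hcard => ?_
    have h1 : T = ∅ := Finset.subset_empty.mp hT.1
    subst h1
    rw [Finset.card_empty] at hcard
    have h2 := hT.2
    rw [Finset.union_empty] at h2
    omega
  | insert e U he ih =>
    intro Z i hi
    by_cases hloop : r (insert e Z) = r Z
    · refine ac_cone e (fun T hT => ⟨?_, ?_⟩) i
      · exact Finset.insert_subset (Finset.mem_insert_self _ _) hT.1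
      · rw [Finset.union_insert, hr.cl e Z _ Finset.subset_union_left hloop]
        exact hT.2
    · have h1 : r (insert e Z) = r Z + 1 := by
        have h2 := hr.step e Z
        have h3 := hr.mono Z (insert e Z) (Finset.subset_insert _ _)
        omega
      refine ac_dl e (fun T hT => ⟨(Finset.subset_insert _ _).trans hT.1,
        (hr.mono _ _ (Finset.union_subset_union_right (Finset.subset_insert _ _))).trans hT.2⟩)
        i ?_ ?_
      · refine ac_congr (fun T => ?_) (ih Z i hi)
        constructor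
        · rintro ⟨h2, h3⟩
          exact ⟨⟨h2.trans (Finset.subset_insert _ _), h3⟩, fun h => he (h2 h)⟩
        · rintro ⟨⟨h2, h3⟩, h4⟩
          exact ⟨(Finset.subset_insert_iff_of_notMem h4).mp h2, h3⟩
      · intro j hj
        refine ac_congr (fun T => ?_) (ih (insert e Z) j (by omega))
        constructor
        · rintro ⟨h2, h3⟩
          refine ⟨⟨Finset.insert_subset_insert _ h2, ?_⟩, fun h => he (h2 h)⟩
          rwa [Finset.union_insert, ← Finset.insert_union]
        · rintro ⟨⟨h2, h3⟩, h4⟩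
          refine ⟨?_, ?_⟩
          · exact (Finset.subset_insert_iff_of_notMem h4).mp ((Finset.subset_insert _ _).trans h2)
          · rwa [Finset.insert_union, ← Finset.union_insert]

lemma ac_simplex (U : Finset (Fin n)) {i : ℕ} (hi : 1 ≤ i) : Ac k (fun T => T ⊆ U) i := by
  classical
  rcases U.eq_empty_or_nonempty with rfl | ⟨u, hu⟩
  · refine ac_none fun T hT hcard => ?_
    rw [Finset.subset_empty.mp hT, Finset.card_empty] at hcard
    omega
  · exact ac_cone (Q := fun T => T ⊆ U) u (fun T hT => Finset.insert_subset hu hT) i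

/-- the union of `K' * 2^S` and `2^U`, `K'` the complex of the subsets of `U` of small rank -/
theorem ac_susp {r : Finset (Fin n) → ℕ} (hr : Rk r) {t i : ℕ} {U S Z : Finset (Fin n)}
    (hUS : Disjoint U S) (hS : S.Nonempty) (hi : 1 ≤ i) (ht : t + 1 < i + r Z) :
    Ac k (fun T => T ⊆ U ∪ S ∧ (r (Z ∪ (T ∩ U)) ≤ t ∨ T ⊆ U)) i := by
  classical
  intro z hz hc
  let z2 : Finset (Fin n) → k := fun T => if r (Z ∪ (T ∩ U)) ≤ t then 0 else z T
  let z1 : Finset (Fin n) → k := fun T => if r (Z ∪ (T ∩ U)) ≤ t then z T else 0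
  have hz12 : ∀ T, z T = z1 T + z2 T := by
    intro T
    simp only [z1, z2]
    split_ifs <;> simp
  have h2 : ∀ T, z2 T ≠ 0 → T ⊆ U ∧ T.card = i := by
    intro T hT
    simp only [z2] at hT
    split_ifs at hT with h
    · exact absurd rfl hT
    · obtain ⟨⟨-, h1⟩, h3⟩ := hz T hT
      exact ⟨h1.resolve_left h, h3⟩
  have h1 : ∀ T, z1 T ≠ 0 → (T ⊆ U ∪ S ∧ r (Z ∪ (T ∩ U)) ≤ t) ∧ T.card = i := by
    intro T hT
    simp only [z1] at hT
    split_ifs at hT with h
    · obtain ⟨⟨h1, -⟩, h3⟩ := hz T hT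
      exact ⟨⟨h1, h⟩, h3⟩
    · exact absurd rfl hT
  have hneg : ∀ T, cd z2 T = -cd z1 T := by
    intro T
    have h3 := hc T
    have h4 : z = fun T => z1 T + z2 T := funext hz12
    rw [h4, cd_add] at h3
    linear_combination h3
  have hy : ∀ T, cd z2 T ≠ 0 → (T ⊆ U ∧ r (Z ∪ T) ≤ t) ∧ T.card = i - 1 := by
    intro T hT
    obtain ⟨j, hj, hj2⟩ := Finset.exists_ne_zero_of_sum_ne_zero hT
    have h3 : z2 (insert j T) ≠ 0 := fun h => hj2 (by rw [h, mul_zero])
    obtain ⟨h4, h5⟩ := h2 _ h3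
    rw [Finset.mem_compl] at hj
    have hTU : T ⊆ U := (Finset.subset_insert _ _).trans h4
    refine ⟨⟨hTU, ?_⟩, ?_⟩
    · have hT1 : cd z1 T ≠ 0 := by
        intro h
        rw [hneg, h, neg_zero] at hT
        exact hT rfl
      obtain ⟨l, -, hl2⟩ := Finset.exists_ne_zero_of_sum_ne_zero hT1
      have h6 : z1 (insert l T) ≠ 0 := fun h => hl2 (by rw [h, mul_zero])
      obtain ⟨⟨-, h7⟩, -⟩ := h1 _ h6
      refine le_trans (hr.mono _ _ (Finset.union_subset_union_right ?_)) h7
      exact Finset.subset_inter (Finset.subset_insert _ _) hTU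
    · rw [Finset.card_insert_of_notMem hj] at h5
      omega
  obtain ⟨w, hw1, hw2⟩ := ac_rank (k := k) hr t U Z (i - 1) (by omega) (cd z2) hy (cd_cd z2)
  have hw1' : ∀ T, w T ≠ 0 → (T ⊆ U ∧ r (Z ∪ T) ≤ t) ∧ T.card = i := by
    intro T hT
    obtain ⟨h3, h4⟩ := hw1 T hT
    exact ⟨h3, by omega⟩
  obtain ⟨g2, hg1, hg2⟩ := ac_simplex (k := k) U hi (fun T => z2 T - w T) (fun T hT => by
      by_cases h : w T = 0
      · rw [h, sub_zero] at hT
        exact h2 T hT
      · exact ⟨(hw1' T h).1.1, (hw1' T h).2⟩) (fun T => by rw [cd_sub, hw2, sub_self])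
  obtain ⟨s, hs⟩ := hS
  have hsU : s ∉ U := fun h => Finset.disjoint_left.mp hUS h hs
  obtain ⟨g1, hg3, hg4⟩ := ac_cone (k := k) (Q := fun T => T ⊆ U ∪ S ∧ r (Z ∪ (T ∩ U)) ≤ t) s
    (fun T hT => ⟨Finset.insert_subset (Finset.mem_union_right _ hs) hT.1, by
      rw [Finset.insert_inter_of_notMem hsU]
      exact hT.2⟩) i (fun T => z1 T + w T) (fun T hT => by
      by_cases h : w T = 0
      · rw [h, add_zero] at hT
        exact h1 T hT
      · obtain ⟨⟨h3, h4⟩, h5⟩ := hw1' T h
        refine ⟨⟨h3.trans Finset.subset_union_left, ?_⟩, h5⟩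
        rwa [Finset.inter_eq_left.mpr h3]) (fun T => by rw [cd_add, hw2, hneg]; ring)
  refine ⟨fun T => g1 T + g2 T, fun T hT => ?_, fun T => ?_⟩
  · change g1 T + g2 T ≠ 0 at hT
    by_cases h : g1 T = 0
    · rw [h, zero_add] at hT
      obtain ⟨h3, h4⟩ := hg1 T hT
      exact ⟨⟨h3.trans Finset.subset_union_left, Or.inr h3⟩, h4⟩
    · obtain ⟨⟨h3, h4⟩, h5⟩ := hg3 T h
      exact ⟨⟨h3, Or.inl h4⟩, h5⟩
  · rw [cd_add, hg4, hg2, hz12]
    ring

/-- adding elements of the closure does not change the rank -/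
lemma rk_union {r : Finset (Fin n) → ℕ} (hr : Rk r) (X : Finset (Fin n)) :
    ∀ Y : Finset (Fin n), (∀ j ∈ Y, r (insert j X) = r X) → r (X ∪ Y) = r X := by
  classical
  intro Y
  induction Y using Finset.induction_on with
  | empty => intro _; rw [Finset.union_empty]
  | insert e Y he ih =>
    intro h
    rw [Finset.union_insert, hr.cl e X _ Finset.subset_union_left
      (h e (Finset.mem_insert_self _ _)), ih fun j hj => h j (Finset.mem_insert_of_mem hj)]

end Pool.Agent.X51.Lev
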