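import Pool.Agent.X51.Lev.Comb
import Pool.Agent.X51.HS.Tor

/-!
The upper Koszul complexes of the second symbolic power of the Stanley–Reisner ideal of a matroid.
-/

set_option autoImplicit false

namespace Pool.Agent.X51.Lev

open Finset Pool.Agent.H677R3.EdgeReg Pool.Agent.X51.HS

variable {n : ℕ} {k : Type*} [Field k]

/-- rank function on finsets -/
noncomputable def rk (N : Matroid (Fin n)) (A : Finset (Fin n)) : ℕ := (N.eRk (A : Set (Fin n))).toNat

lemma eRk_ne_top (N : Matroid (Fin n)) (A : Set (Fin n)) : N.eRk A ≠ ⊤ := by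
  have h := N.eRk_le_encard A
  have h2 : A.encard ≠ ⊤ := Set.encard_ne_top_iff.mpr (Set.toFinite A)
  exact ne_top_of_le_ne_top h2 h

lemma coe_rk (N : Matroid (Fin n)) (A : Finset (Fin n)) :
    ((rk N A : ℕ) : ℕ∞) = N.eRk (A : Set (Fin n)) := ENat.natCast_toNat (eRk_ne_top N _)

lemma rk_Rk (N : Matroid (Fin n)) : Rk (rk N) where
  mono A B h := by
    have : ((rk N A : ℕ) : ℕ∞) ≤ (rk N B : ℕ) := by
      rw [coe_rk, coe_rk]
      exact N.eRk_mono (by exact_mod_cast h)
    exact_mod_cast this
  step e A := by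
    have : ((rk N (insert e A) : ℕ) : ℕ∞) ≤ (rk N A : ℕ) + 1 := by
      rw [coe_rk, coe_rk, Finset.coe_insert]
      exact N.eRk_insert_le_add_one e _
    exact_mod_cast this
  cl e A B h he := by
    have h1 := N.eRk_submod (B : Set (Fin n)) ((insert e A : Finset (Fin n)) : Set (Fin n))
    rw [← Finset.coe_inter, ← Finset.coe_union, ← coe_rk, ← coe_rk, ← coe_rk, ← coe_rk] at h1
    have h2 : rk N (B ∩ insert e A) + rk N (B ∪ insert e A) ≤ rk N B + rk N (insert e A) := by
      exact_mod_cast h1
    have hmono : ∀ A B : Finset (Fin n), A ⊆ B → rk N A ≤ rk N B := by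
      intro A B h
      have : ((rk N A : ℕ) : ℕ∞) ≤ (rk N B : ℕ) := by
        rw [coe_rk, coe_rk]
        exact N.eRk_mono (by exact_mod_cast h)
      exact_mod_cast this
    have h3 := hmono A (B ∩ insert e A) (Finset.subset_inter h (Finset.subset_insert _ _))
    have h4 := hmono (insert e B) (B ∪ insert e A) (Finset.insert_subset
      (Finset.mem_union_right _ (Finset.mem_insert_self _ _)) Finset.subset_union_left)
    have h5 := hmono B (insert e B) (Finset.subset_insert _ _)
    omega

/-- spanning sets contain bases -/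
lemma base_iff (N : Matroid (Fin n)) (A : Finset (Fin n)) :
    (∃ B : Finset (Fin n), N.IsBase (B : Set (Fin n)) ∧ B ⊆ A) ↔ rk N Finset.univ ≤ rk N A := by
  classical
  have huniv : N.eRk ((Finset.univ : Finset (Fin n)) : Set (Fin n)) = N.eRank := by
    rw [Finset.coe_univ]
    exact N.eRk_univ_eq
  constructor
  · rintro ⟨B, hB, hBA⟩
    have : ((rk N Finset.univ : ℕ) : ℕ∞) ≤ (rk N A : ℕ) := by
      rw [coe_rk, coe_rk, huniv, ← hB.eRk_eq_eRank]
      exact N.eRk_mono (by exact_mod_cast hBA)
    exact_mod_cast this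
  · intro h
    have h1 : N.eRank ≤ N.eRk (A : Set (Fin n)) := by
      rw [← huniv, ← coe_rk, ← coe_rk]
      exact_mod_cast h
    obtain ⟨I, hI⟩ := N.exists_isBasis' (A : Set (Fin n))
    have h2 : N.IsBase I := hI.indep.isBase_of_eRk_ge (Set.toFinite I) (by rwa [hI.eRk_eq_eRk])
    refine ⟨(Set.toFinite I).toFinset, by rwa [Set.Finite.coe_toFinset], ?_⟩
    intro x hx
    rw [Set.Finite.mem_toFinset] at hx
    exact_mod_cast hI.subset hx

/-- the exponents of the monomials in the second symbolic power, in terms of the dual matroid -/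
def PN (N : Matroid (Fin n)) (c : Fin n →₀ ℕ) : Prop :=
  ∀ B : Finset (Fin n), N.IsBase (B : Set (Fin n)) → 2 ≤ ∑ j ∈ B, c j

lemma kp_rank (N : Matroid (Fin n)) (a : Fin n →₀ ℕ) (ha : ∀ j, a j ≤ 2) (Z U S T : Finset (Fin n))
    (hZ : ∀ j, j ∈ Z ↔ a j = 0) (hU : ∀ j, j ∈ U ↔ a j = 1) (hS : ∀ j, j ∈ S ↔ a j = 2) :
    Kp (PN N) a T ↔ T ⊆ U ∪ S ∧ (rk N (Z ∪ (T ∩ U)) + 2 ≤ rk N Finset.univ ∨
      (rk N (Z ∪ (T ∩ U)) + 1 = rk N Finset.univ ∧
        rk N (Z ∪ U ∪ T) + 1 ≤ rk N Finset.univ)) := by
  classical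
  have hr := rk_Rk N
  unfold Kp
  have hle : ind T ≤ a ↔ T ⊆ U ∪ S := by
    constructor
    · intro h j hj
      have h1 := h j
      rw [ind_apply, if_pos hj] at h1
      have h2 := ha j
      rw [Finset.mem_union, hU, hS]
      omega
    · intro h j
      rw [ind_apply]
      split_ifs with hj
      · have h1 := h hj
        rw [Finset.mem_union, hU, hS] at h1
        omega
      · omega
  rw [hle]
  refine and_congr_right fun hT => ?_
  have hc : ∀ j, (a - ind T : Fin n →₀ ℕ) j = a j - (if j ∈ T then 1 else 0) := by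
    intro j
    rw [Finsupp.coe_tsub, Pi.sub_apply, ind_apply]
  have hX : ∀ j, j ∈ Z ∪ (T ∩ U) ↔ (a - ind T : Fin n →₀ ℕ) j = 0 := by
    intro j
    rw [hc, Finset.mem_union, Finset.mem_inter, hZ, hU]
    split_ifs with h
    · simp only [h, true_and]
      omega
    · simp only [h, false_and, or_false]
      omega
  constructor
  · intro hP
    have h1 : rk N (Z ∪ (T ∩ U)) < rk N Finset.univ := by
      by_contra hcon
      obtain ⟨B, hB, hBX⟩ := (base_iff N (Z ∪ (T ∩ U))).mpr (by omega)
      have h2 := hP B hB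
      rw [Finset.sum_eq_zero (fun j hj => (hX j).mp (hBX hj))] at h2
      omega
    by_cases h2 : rk N (Z ∪ (T ∩ U)) + 2 ≤ rk N Finset.univ
    · exact Or.inl h2
    · refine Or.inr ⟨by omega, ?_⟩
      by_contra hcon
      have h3 : ¬ ∀ j ∈ U ∪ T, rk N (insert j (Z ∪ (T ∩ U))) = rk N (Z ∪ (T ∩ U)) := by
        intro h4
        have h5 := rk_union hr _ _ h4
        have h6 : Z ∪ (T ∩ U) ∪ (U ∪ T) = Z ∪ U ∪ T := by
          ext j
          simp only [Finset.mem_union, Finset.mem_inter]
          tauto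
        rw [h6] at h5
        omega
      push Not at h3
      obtain ⟨j, hj, hj2⟩ := h3
      have h4 := hr.step j (Z ∪ (T ∩ U))
      have h5 := hr.mono _ _ (Finset.subset_insert j (Z ∪ (T ∩ U)))
      obtain ⟨B, hB, hBX⟩ := (base_iff N (insert j (Z ∪ (T ∩ U)))).mpr (by omega)
      have h6 := hP B hB
      have h7 : ∑ l ∈ B, (a - ind T : Fin n →₀ ℕ) l ≤
          ∑ l ∈ insert j (Z ∪ (T ∩ U)), (a - ind T : Fin n →₀ ℕ) l :=
        Finset.sum_le_sum_of_subset hBX
      have hjX : j ∉ Z ∪ (T ∩ U) := by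
        intro h
        rw [Finset.insert_eq_of_mem h] at hj2
        exact hj2 rfl
      rw [Finset.sum_insert hjX, Finset.sum_eq_zero (fun l hl => (hX l).mp hl), add_zero, hc] at h7
      have h8 := ha j
      rw [Finset.mem_union, hU] at hj
      split_ifs at h7 with h9
      · omega
      · rcases hj with hj | hj
        · omega
        · exact h9 hj
  · intro hrk B hB
    by_contra hcon
    have h1 : ∑ j ∈ B, (a - ind T : Fin n →₀ ℕ) j ≤ 1 := by omega
    by_cases h2 : ∀ j ∈ B, (a - ind T : Fin n →₀ ℕ) j = 0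
    · have h3 := (base_iff N (Z ∪ (T ∩ U))).mp ⟨B, hB, fun j hj => (hX j).mpr (h2 j hj)⟩
      omega
    · push Not at h2
      obtain ⟨j, hjB, hj⟩ := h2
      rw [← Finset.add_sum_erase _ _ hjB] at h1
      have h3 : ∀ l ∈ B.erase j, (a - ind T : Fin n →₀ ℕ) l = 0 := by
        have h4 : ∑ l ∈ B.erase j, (a - ind T : Fin n →₀ ℕ) l = 0 := by omega
        exact fun l hl => Finset.sum_eq_zero_iff.mp h4 l hl
      have h4 : B ⊆ insert j (Z ∪ (T ∩ U)) := by
        intro l hl
        by_cases hlj : l = j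
        · rw [hlj]
          exact Finset.mem_insert_self _ _
        · exact Finset.mem_insert_of_mem ((hX l).mpr (h3 l (Finset.mem_erase.mpr ⟨hlj, hl⟩)))
      have h5 := (base_iff N (insert j (Z ∪ (T ∩ U)))).mp ⟨B, hB, h4⟩
      have h6 := hr.step j (Z ∪ (T ∩ U))
      have h7 : B ⊆ Z ∪ U ∪ T := by
        intro l hl
        rcases Finset.mem_insert.mp (h4 hl) with rfl | h
        · have h8 : (a - ind T : Fin n →₀ ℕ) l = 1 := by omega
          rw [hc] at h8
          rw [Finset.mem_union, Finset.mem_union, hU]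
          have h9 := ha l
          split_ifs at h8 with h10
          · exact Or.inr h10
          · omega
        · rw [Finset.mem_union, Finset.mem_inter] at h
          rw [Finset.mem_union, Finset.mem_union]
          tauto
      have h8 := (base_iff N (Z ∪ U ∪ T)).mp ⟨B, hB, h7⟩
      omega

/-- the combinatorial core -/
theorem core (N : Matroid (Fin n)) (a : Fin n →₀ ℕ) (i : ℕ) (hi : rk N Finset.univ ≤ i + 1)
    (hne : ¬ Ac k (Kp (PN N) a) i) :
    i + 1 = rk N Finset.univ ∧ ∃ C : Finset (Fin n),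
      (rk N Cᶜ + 1 = rk N Finset.univ ∧ ∀ s ∈ C, rk N Finset.univ ≤ rk N (insert s Cᶜ)) ∧
      ∑ j, a j + (Finset.univ.filter fun j => rk N {j} = 0).card = n + C.card := by
  classical
  have hr := rk_Rk N
  have hempty : rk N ∅ = 0 := by
    unfold rk
    simp
  -- entries at most two
  have ha : ∀ j, a j ≤ 2 := by
    by_contra hcon
    push Not at hcon
    obtain ⟨j, hj⟩ := hcon
    refine hne (ac_cone j (fun T hT => ?_) i)
    obtain ⟨h1, h2⟩ := hT
    refine ⟨fun l => ?_, fun B hB => ?_⟩
    · have h3 := h1 l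
      rw [ind_apply] at h3 ⊢
      by_cases hl : l = j
      · subst hl
        split_ifs <;> omega
      · simpa [hl] using h3
    · by_cases hjB : j ∈ B
      · have h3 : (a - ind (insert j T) : Fin n →₀ ℕ) j ≤
            ∑ l ∈ B, (a - ind (insert j T) : Fin n →₀ ℕ) l :=
          Finset.single_le_sum (f := fun l => (a - ind (insert j T) : Fin n →₀ ℕ) l)
            (fun _ _ => Nat.zero_le _) hjB
        have h4 : (a - ind (insert j T) : Fin n →₀ ℕ) j = a j - 1 := by
          rw [Finsupp.coe_tsub, Pi.sub_apply, ind_apply, if_pos (Finset.mem_insert_self _ _)]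
        rw [h4] at h3
        omega
      · have h3 : ∑ l ∈ B, (a - ind (insert j T) : Fin n →₀ ℕ) l =
            ∑ l ∈ B, (a - ind T : Fin n →₀ ℕ) l := by
          refine Finset.sum_congr rfl fun l hl => ?_
          have hlj : l ≠ j := fun h => hjB (h ▸ hl)
          rw [Finsupp.coe_tsub, Pi.sub_apply, Finsupp.coe_tsub, Pi.sub_apply, ind_apply, ind_apply]
          simp [hlj]
        rw [h3]
        exact h2 B hB
  set Z := Finset.univ.filter fun j => a j = 0 with hZd
  set U := Finset.univ.filter fun j => a j = 1 with hUd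
  set S := Finset.univ.filter fun j => a j = 2 with hSd
  have hZ : ∀ j, j ∈ Z ↔ a j = 0 := by simp [hZd]
  have hU : ∀ j, j ∈ U ↔ a j = 1 := by simp [hUd]
  have hS : ∀ j, j ∈ S ↔ a j = 2 := by simp [hSd]
  have hkp := fun T => kp_rank N a ha Z U S T hZ hU hS
  have hUS : Disjoint U S := by
    rw [Finset.disjoint_left]
    intro j h1 h2
    rw [hU] at h1
    rw [hS] at h2
    omega
  have hZU : Z ∪ U = Sᶜ := by
    ext j
    rw [Finset.mem_union, Finset.mem_compl, hZ, hU, hS]
    have := ha j
    omega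
  set h := rk N Finset.univ with hh
  have hρ : rk N (Z ∪ U) ≤ h := hr.mono _ _ (Finset.subset_univ _)
  -- the rank of `Z ∪ U`
  have hcase : rk N (Z ∪ U) + 1 = h := by
    by_contra hcon
    apply hne
    by_cases h1 : rk N (Z ∪ U) = h
    · have hK : ∀ T, Kp (PN N) a T ↔ T ⊆ U ∪ S ∧ rk N (Z ∪ (T ∩ U)) + 2 ≤ h := by
        intro T
        rw [hkp T]
        have h2 := hr.mono (Z ∪ U) (Z ∪ U ∪ T) Finset.subset_union_left
        constructor
        · rintro ⟨h3, h4 | h4⟩
          · exact ⟨h3, h4⟩
          · omega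
        · rintro ⟨h3, h4⟩
          exact ⟨h3, Or.inl h4⟩
      rcases S.eq_empty_or_nonempty with hS0 | ⟨s, hs⟩
      · by_cases h2 : 2 ≤ h
        · refine ac_congr (fun T => ?_) (ac_rank (k := k) hr (h - 2) U Z i (by omega))
          rw [hK, hS0, Finset.union_empty]
          constructor
          · rintro ⟨h3, h4⟩
            rw [Finset.inter_eq_left.mpr h3]
            exact ⟨h3, by omega⟩
          · rintro ⟨h3, h4⟩
            rw [Finset.inter_eq_left.mpr h3] at h4
            exact ⟨h3, by omega⟩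
        · exact ac_none fun T hT => by
            have := ((hK T).mp hT).2
            omega
      · refine ac_cone s (fun T hT => ?_) i
        rw [hK] at hT ⊢
        have hsU : s ∉ U := fun h' => Finset.disjoint_left.mp hUS h' hs
        rw [Finset.insert_inter_of_notMem hsU]
        exact ⟨Finset.insert_subset (Finset.mem_union_right _ hs) hT.1, hT.2⟩
    · have h2 : rk N (Z ∪ U) + 2 ≤ h := by omega
      have hK : ∀ T, Kp (PN N) a T ↔ T ⊆ U ∪ S := by
        intro T
        rw [hkp T]
        refine ⟨fun h3 => h3.1, fun h3 => ⟨h3, Or.inl ?_⟩⟩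
        have := hr.mono (Z ∪ (T ∩ U)) (Z ∪ U)
          (Finset.union_subset_union_right Finset.inter_subset_right)
        omega
      obtain ⟨e, he⟩ : (U ∪ S).Nonempty := by
        by_contra hcon'
        rw [Finset.not_nonempty_iff_eq_empty] at hcon'
        have hS0 : S = ∅ := Finset.subset_empty.mp (hcon' ▸ Finset.subset_union_right)
        rw [hZU, hS0, Finset.compl_empty] at h2
        omega
      refine ac_cone e (fun T hT => ?_) i
      rw [hK] at hT ⊢
      exact Finset.insert_subset he hT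
  -- `Z ∪ U` is a flat
  have hflat : ∀ s ∈ S, h ≤ rk N (insert s (Z ∪ U)) := by
    by_contra hcon
    push Not at hcon
    obtain ⟨s, hs, hs2⟩ := hcon
    have h1 := hr.mono _ _ (Finset.subset_insert s (Z ∪ U))
    have hsU : s ∉ U := fun h' => Finset.disjoint_left.mp hUS h' hs
    refine hne (ac_cone s (fun T hT => ?_) i)
    rw [hkp] at hT ⊢
    rw [Finset.insert_inter_of_notMem hsU, Finset.union_insert,
      hr.cl s (Z ∪ U) (Z ∪ U ∪ T) Finset.subset_union_left (by omega)]
    exact ⟨Finset.insert_subset (Finset.mem_union_right _ hs) hT.1, hT.2⟩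
  have hSne : S.Nonempty := by
    by_contra hcon
    rw [Finset.not_nonempty_iff_eq_empty] at hcon
    rw [hZU, hcon, Finset.compl_empty] at hcase
    omega
  have hK : ∀ T, Kp (PN N) a T ↔ T ⊆ U ∪ S ∧ (rk N (Z ∪ (T ∩ U)) + 2 ≤ h ∨ T ⊆ U) := by
    intro T
    rw [hkp T]
    have h0 := hr.mono (Z ∪ (T ∩ U)) (Z ∪ U)
      (Finset.union_subset_union_right Finset.inter_subset_right)
    constructor
    · rintro ⟨h1, h2 | ⟨h2, h3⟩⟩
      · exact ⟨h1, Or.inl h2⟩
      · refine ⟨h1, Or.inr fun j hj => ?_⟩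
        rcases Finset.mem_union.mp (h1 hj) with h4 | h4
        · exact h4
        · exfalso
          have h5 := hflat j h4
          have h6 := hr.mono (insert j (Z ∪ U)) (Z ∪ U ∪ T)
            (Finset.insert_subset (Finset.mem_union_right _ hj) Finset.subset_union_left)
          omega
    · rintro ⟨h1, h2 | h2⟩
      · exact ⟨h1, Or.inl h2⟩
      · refine ⟨h1, ?_⟩
        have h3 : Z ∪ U ∪ T = Z ∪ U := Finset.union_eq_left.mpr (h2.trans Finset.subset_union_right)
        rw [h3]
        by_cases h4 : rk N (Z ∪ (T ∩ U)) + 2 ≤ h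
        · exact Or.inl h4
        · exact Or.inr ⟨by omega, by omega⟩
  -- elements of `U` are not in the closure of `Z`
  have hUloop : ∀ u ∈ U, rk N (insert u Z) ≠ rk N Z := by
    intro u hu hcon
    refine hne (ac_cone u (fun T hT => ?_) i)
    rw [hK] at hT ⊢
    refine ⟨Finset.insert_subset (Finset.mem_union_left _ hu) hT.1, ?_⟩
    rcases hT.2 with h1 | h1
    · left
      rw [Finset.insert_inter_of_mem hu, Finset.union_insert,
        hr.cl u Z _ Finset.subset_union_left hcon]
      exact h1
    · exact Or.inr (Finset.insert_subset hu h1)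
  have hkey : ¬ (1 ≤ i ∧ (2 ≤ h → h - 2 + 1 < i + rk N Z)) := by
    rintro ⟨h1, h2⟩
    apply hne
    by_cases h3 : 2 ≤ h
    · refine ac_congr (fun T => ?_) (ac_susp (k := k) hr (t := h - 2) (Z := Z) hUS hSne h1 (h2 h3))
      rw [hK]
      constructor
      · rintro ⟨h4, h5 | h5⟩
        · exact ⟨h4, Or.inl (by omega)⟩
        · exact ⟨h4, Or.inr h5⟩
      · rintro ⟨h4, h5 | h5⟩
        · exact ⟨h4, Or.inl (by omega)⟩
        · exact ⟨h4, Or.inr h5⟩
    · refine ac_congr (fun T => ?_) (ac_simplex (k := k) U h1)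
      rw [hK]
      constructor
      · intro h4
        exact ⟨h4.trans Finset.subset_union_left, Or.inr h4⟩
      · rintro ⟨-, h4 | h4⟩
        · omega
        · exact h4
  have hZr : rk N Z ≤ rk N (Z ∪ U) := hr.mono _ _ Finset.subset_union_left
  have hih : i + 1 = h := by
    by_contra hcon
    exact hkey ⟨by omega, fun _ => by omega⟩
  have hZ0 : rk N Z = 0 := by
    by_contra hcon
    exact hkey ⟨by omega, fun _ => by omega⟩
  refine ⟨hih, S, ⟨by rw [← hZU]; exact hcase, by rw [← hZU]; exact hflat⟩, ?_⟩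
  have hloops : (Finset.univ.filter fun j => rk N {j} = 0) = Z := by
    ext j
    rw [Finset.mem_filter]
    simp only [Finset.mem_univ, true_and]
    constructor
    · intro hj
      have hj' : rk N (insert j ∅) = rk N ∅ := by
        rw [hempty, LawfulSingleton.insert_empty_eq]
        exact hj
      by_contra hjZ
      have h2 := ha j
      rw [hZ] at hjZ
      by_cases h3 : a j = 1
      · exact hUloop j ((hU j).mpr h3) (hr.cl j ∅ Z (Finset.empty_subset _) hj')
      · have h4 := hflat j ((hS j).mpr (by omega))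
        rw [hr.cl j ∅ (Z ∪ U) (Finset.empty_subset _) hj'] at h4
        omega
    · intro hj
      have := hr.mono {j} Z (Finset.singleton_subset_iff.mpr hj)
      omega
  rw [hloops]
  have hsum : ∀ j, a j + (if a j = 0 then 1 else 0) = 1 + (if a j = 2 then 1 else 0) := by
    intro j
    have := ha j
    interval_cases (a j) <;> simp
  have h9 := Finset.sum_congr (rfl : (Finset.univ : Finset (Fin n)) = Finset.univ)
    (fun j _ => hsum j)
  rw [Finset.sum_add_distrib, Finset.sum_add_distrib, ← Finset.card_filter, ← Finset.card_filter,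
    Finset.sum_const, Finset.card_univ, Fintype.card_fin, smul_eq_mul, mul_one] at h9
  exact h9

end Pool.Agent.X51.Lev
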