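import Pool.Agent.X51.Lev.Alg

/-!
Graded Koszul homology of `R/J` for a monomial ideal `J`.
-/

set_option autoImplicit false

namespace Pool.Agent.X51.Lev

open Finset Pool.Agent.H677R3.EdgeReg Pool.Agent.X51.HS

variable {n : ℕ} {k : Type*} [Field k]

/-- `Tor_i^R(R/J, k)_d ≠ 0` -/
def TorQ (J : Ideal (MvPolynomial (Fin n) k)) (i d : ℕ) : Prop :=
  ∃ f : Finset (Fin n) → MvPolynomial (Fin n) k,
    (∀ T, ∀ c ∈ (f T).support, ∑ v, c v + T.card = d) ∧
    (∀ T, T.card ≠ i → f T = 0) ∧ (∀ T, koszulD f T ∈ J) ∧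
    ¬ ∃ g : Finset (Fin n) → MvPolynomial (Fin n) k,
      (∀ T, T.card ≠ i + 1 → g T = 0) ∧ ∀ T, f T - koszulD g T ∈ J

/-- relative acyclicity -/
def AcQ (k : Type*) [Field k] (b : Fin n →₀ ℕ) (Q : Finset (Fin n) → Prop) (i : ℕ) : Prop :=
  ∀ z : Finset (Fin n) → k, (∀ T, z T ≠ 0 → ind T ≤ b ∧ T.card = i) → (∀ T, cd z T ≠ 0 → Q T) →
    ∃ g w : Finset (Fin n) → k, (∀ T, g T ≠ 0 → ind T ≤ b ∧ T.card = i + 1) ∧
      (∀ T, w T ≠ 0 → Q T) ∧ ∀ T, z T = cd g T + w T

lemma ind_insert_le {b : Fin n →₀ ℕ} {e : Fin n} (he : b e ≠ 0) {T : Finset (Fin n)}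
    (hT : ind T ≤ b) : ind (insert e T) ≤ b := by
  intro j
  have := hT j
  rw [ind_apply] at this ⊢
  by_cases hj : j = e
  · subst hj
    split_ifs <;> omega
  · simpa [hj] using this

lemma acQ_zero {b : Fin n →₀ ℕ} (hb : b ≠ 0) (Q : Finset (Fin n) → Prop) (hQ : ∀ T, ¬ Q T) (i : ℕ) :
    AcQ k b Q i := by
  obtain ⟨e, he⟩ : ∃ e, b e ≠ 0 := by
    by_contra hcon
    push Not at hcon
    exact hb (Finsupp.ext hcon)
  intro z hz hc
  have hc' : ∀ T, cd z T = 0 := fun T => by
    by_contra h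
    exact hQ T (hc T h)
  obtain ⟨g, hg1, hg2⟩ := ac_cone (k := k) (Q := fun T => ind T ≤ b) e
    (fun T hT => ind_insert_le he hT) i z hz hc'
  exact ⟨g, fun _ => 0, hg1, fun T h => absurd rfl h, fun T => by rw [hg2, add_zero]⟩

lemma acQ_of {b : Fin n →₀ ℕ} {Q : Finset (Fin n) → Prop} (hQ : ∀ T, Q T → ind T ≤ b) {i : ℕ}
    (h : Ac k Q i) : AcQ k b Q (i + 1) := by
  intro z hz hc
  -- the boundary
  obtain ⟨g, hg1, hg2⟩ := h (cd z) (fun T hT => ⟨hc T hT, by
    unfold cd at hT
    obtain ⟨j, hj, hj2⟩ := Finset.exists_ne_zero_of_sum_ne_zero hT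
    have h1 : z (insert j T) ≠ 0 := fun h' => hj2 (by rw [h', mul_zero])
    have h2 := (hz _ h1).2
    rw [Finset.card_insert_of_notMem (Finset.mem_compl.mp hj)] at h2
    omega⟩) (fun T => cd_cd z T)
  by_cases hb : b = 0
  · refine ⟨fun _ => 0, fun _ => 0, fun T h => absurd rfl h, fun T h => absurd rfl h, fun T => ?_⟩
    rw [cd_zero, add_zero]
    by_contra hT
    obtain ⟨h1, h2⟩ := hz T hT
    have h3 : T = ∅ := by
      by_contra hne
      obtain ⟨j, hj⟩ := Finset.nonempty_iff_ne_empty.mpr hne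
      have := h1 j
      rw [ind_apply, if_pos hj, hb] at this
      simp at this
    rw [h3] at h2
    simp at h2
  · obtain ⟨e, he⟩ : ∃ e, b e ≠ 0 := by
      by_contra hcon
      push Not at hcon
      exact hb (Finsupp.ext hcon)
    obtain ⟨g', hg'1, hg'2⟩ := ac_cone (k := k) (Q := fun T => ind T ≤ b) e
      (fun T hT => ind_insert_le he hT) (i + 1) (fun T => z T - g T) (fun T hT => by
        by_cases hzT : z T = 0
        · have : g T ≠ 0 := fun h' => hT (by rw [hzT, h', sub_zero])
          obtain ⟨h1, h2⟩ := hg1 T this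
          exact ⟨hQ T h1, h2⟩
        · exact hz T hzT) (fun T => by rw [cd_sub, hg2, sub_self])
    refine ⟨g', g, hg'1, fun T hT => (hg1 T hT).1, fun T => ?_⟩
    rw [hg'2]
    ring

theorem transferQ (J : Ideal (MvPolynomial (Fin n) k)) (P : (Fin n →₀ ℕ) → Prop)
    (hJ : ∀ p, p ∈ J ↔ ∀ c ∈ p.support, P c) (i d : ℕ)
    (hac : ∀ b : Fin n →₀ ℕ, ∑ v, b v = d → AcQ k b (Kp P b) i) : ¬ TorQ J i d := by
  classical
  rintro ⟨f, hf2, hf3, hf4, hf5⟩
  apply hf5
  have hcoef : ∀ b T, comp f b T ≠ 0 → (ind T ≤ b ∧ T.card = i) ∧ ∑ v, b v = d := by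
    intro b T h
    unfold comp at h
    split_ifs at h with hle
    · have hs : b - ind T ∈ (f T).support := MvPolynomial.mem_support_iff.mpr h
      have hcard : T.card = i := by
        by_contra hne
        rw [hf3 T hne] at h
        simp at h
      refine ⟨⟨hle, hcard⟩, ?_⟩
      have h1 := hf2 T _ hs
      have h3 : ∑ v, b v = ∑ v, (b - ind T) v + ∑ v, ind T v := by
        rw [← Finset.sum_add_distrib]
        refine Finset.sum_congr rfl fun v _ => ?_
        have := hle v
        simp only [Finsupp.coe_tsub, Pi.sub_apply]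
        omega
      rw [h3, sum_ind]
      exact h1
    · exact absurd rfl h
  have hcyc : ∀ b T, cd (comp f b) T ≠ 0 → Kp P b T := by
    intro b T hT
    rw [← comp_koszulD] at hT
    unfold comp at hT
    split_ifs at hT with hle
    · exact ⟨hle, (hJ _).mp (hf4 T) _ (MvPolynomial.mem_support_iff.mpr hT)⟩
    · exact absurd rfl hT
  have hex : ∀ b, ∃ g w : Finset (Fin n) → k, (∀ T, g T ≠ 0 → ind T ≤ b ∧ T.card = i + 1) ∧
      (∀ T, w T ≠ 0 → Kp P b T) ∧ ∀ T, comp f b T = cd g T + w T := by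
    intro b
    by_cases hb : ∑ v, b v = d
    · exact hac b hb (comp f b) (fun T hT => (hcoef b T hT).1) (hcyc b)
    · refine ⟨fun _ => 0, fun _ => 0, fun T h => absurd rfl h, fun T h => absurd rfl h,
        fun T => ?_⟩
      rw [cd_zero, add_zero]
      by_contra h
      exact hb (hcoef b T h).2
  choose G W hG1 hW1 hG2 using hex
  let B : Finset (Fin n →₀ ℕ) := Finset.univ.biUnion (fun T => (f T).support.image (· + ind T))
  have hB : ∀ b, b ∉ B → ∀ T, comp f b T = 0 := by
    intro b hb T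
    by_contra h
    apply hb
    have hle := (hcoef b T h).1.1
    unfold comp at h
    rw [if_pos hle] at h
    refine Finset.mem_biUnion.mpr ⟨T, Finset.mem_univ _, Finset.mem_image.mpr ⟨b - ind T,
      MvPolynomial.mem_support_iff.mpr h, tsub_add_cancel_of_le hle⟩⟩
  let g : Finset (Fin n) → MvPolynomial (Fin n) k :=
    fun T => ∑ b ∈ B, MvPolynomial.monomial (b - ind T) (G b T)
  have hg : ∀ b T, comp g b T = if b ∈ B then G b T else 0 := by
    intro b T
    have key : ∀ b' ∈ B, ind T ≤ b → (MvPolynomial.monomial (b' - ind T) (G b' T)).coeff (b - ind T) =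
        if b' = b then G b T else 0 := by
      intro b' _ hle
      rw [MvPolynomial.coeff_monomial]
      by_cases h0 : G b' T = 0
      · by_cases h1 : b' = b
        · subst h1; simp [h0]
        · rw [h0]; simp [h1]
      · have hle' := (hG1 b' T h0).1
        by_cases h1 : b' = b
        · subst h1; simp
        · rw [if_neg h1, if_neg]
          intro h2
          apply h1
          rw [← tsub_add_cancel_of_le hle', ← tsub_add_cancel_of_le hle, h2]
    unfold comp
    by_cases hle : ind T ≤ b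
    · rw [if_pos hle]
      simp only [g]
      rw [MvPolynomial.coeff_sum, Finset.sum_congr rfl (fun b' hb' => key b' hb' hle)]
      rw [Finset.sum_ite_eq' B b]
    · rw [if_neg hle]
      split_ifs with hb
      · by_contra h
        exact hle (hG1 b T (fun h' => h h'.symm)).1
      · rfl
  refine ⟨g, ?_, ?_⟩
  · intro T hT
    ext c
    rw [← comp_add_ind, hg, MvPolynomial.coeff_zero]
    split_ifs
    · by_contra h
      exact hT (hG1 _ _ h).2
    · rfl
  · intro T
    rw [hJ]
    intro c hc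
    rw [MvPolynomial.mem_support_iff, MvPolynomial.coeff_sub, ← comp_add_ind, ← comp_add_ind,
      comp_koszulD] at hc
    set b := c + ind T with hb'
    have hgb : comp g b = fun T => if b ∈ B then G b T else 0 := by
      funext T; exact hg b T
    rw [hgb] at hc
    by_cases hb : b ∈ B
    · simp only [if_pos hb] at hc
      rw [hG2 b T] at hc
      have hc2 : cd (fun T => G b T) T = cd (G b) T := rfl
      rw [hc2, add_sub_cancel_left] at hc
      have := (hW1 b T hc).2
      rwa [hb', add_tsub_cancel_right] at this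
    · simp only [if_neg hb] at hc
      rw [cd_zero, hB b hb, sub_zero] at hc
      exact absurd rfl hc

/-- the second symbolic power: everything about Tor -/
theorem level_main {M : Matroid (Fin n)} (hE : M.E = Set.univ) {r : ℕ}
    (hr : ∀ C : Set (Fin n), M.IsCircuit C → C.ncard = r) :
    ∃ c D : ℕ, (symbSq (SR k M)).height = c ∧
      (∀ i d, c < i → ¬ TorQ (symbSq (SR k M)) i d) ∧ ∀ d, TorQ (symbSq (SR k M)) c d → d = D := by
  classical
  set N := M✶ with hN
  have hKi : ∀ (b : Fin n →₀ ℕ) T, Kp (PN N) b T → ind T ≤ b := fun b T h => h.1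
  have hmem := fun p => mem_symbSq (K := k) hE p
  have hhigh : ∀ i d, rk N Finset.univ ≤ i + 1 → TorQ (symbSq (SR k M)) (i + 1) d →
      i + 1 = rk N Finset.univ ∧
        d + (Finset.univ.filter fun j => rk N {j} = 0).card = n + r := by
    intro i d hi hT
    by_contra hcon
    refine transferQ _ (PN N) hmem (i + 1) d (fun b hb => acQ_of (hKi b) ?_) hT
    by_contra hne
    apply hcon
    obtain ⟨h1, C, ⟨h2, h3⟩, h4⟩ := core N b i hi hne
    refine ⟨h1, ?_⟩
    have h5 := hr _ (isCircuit_of hE h2 h3)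
    rw [Set.ncard_coe_finset] at h5
    rw [← hb, h4, h5]
  refine ⟨rk N Finset.univ, if rk N Finset.univ = 0 then 0 else
    n + r - (Finset.univ.filter fun j => rk N {j} = 0).card, height_symbSq hE, ?_, ?_⟩
  · intro i d hi hT
    obtain ⟨i', rfl⟩ : ∃ i', i = i' + 1 := ⟨i - 1, by omega⟩
    have := hhigh i' d (by omega) hT
    omega
  · intro d hT
    by_cases h0 : rk N Finset.univ = 0
    · rw [if_pos h0]
      rw [h0] at hT
      by_contra hd
      refine transferQ _ (PN N) hmem 0 d (fun b hb => acQ_zero ?_ _ ?_ 0) hT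
      · rintro rfl
        apply hd
        rw [← hb]
        simp
      · rintro T ⟨-, h1⟩
        obtain ⟨B, hB, hB2⟩ := (base_iff N ∅).mpr (by omega)
        have h2 := h1 B hB
        rw [Finset.subset_empty.mp hB2, Finset.sum_empty] at h2
        omega
    · rw [if_neg h0]
      obtain ⟨i', hi'⟩ : ∃ i', rk N Finset.univ = i' + 1 := ⟨rk N Finset.univ - 1, by omega⟩
      rw [hi'] at hT
      have := (hhigh i' d (by omega) hT).2
      omega

end Pool.Agent.X51.Lev
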